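import Pool.Agent.Helper16.FAM.Defs

/-!
# Project FAM, pieces E1 and E2: denominators and specialisation
-/

namespace Pool.Agent.Helper94.FAM

open Polynomial

universe u

/-- The ring generated by the `x i` and the `w j` is integral over the polynomial ring. -/
theorem integral_aux {F Ω : Type u} [Field F] [Field Ω] [Algebra F Ω] {n s : ℕ}
    (x : Fin n → Ω) (w : Fin s → Ω) (Φ : Fin s → MvPolynomial (Fin n) F)
    (hw : ∀ j, w j ^ 2 = MvPolynomial.aeval x (Φ j)) :
    ∃ α : MvPolynomial (Fin n) F →ₐ[F] Algebra.adjoin F (Set.range x ∪ Set.range w),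
      (∀ h, ((α h : Algebra.adjoin F (Set.range x ∪ Set.range w)) : Ω) =
        MvPolynomial.aeval x h) ∧ α.toRingHom.IsIntegral := by
  set O : Subalgebra F Ω := Algebra.adjoin F (Set.range x ∪ Set.range w) with hO
  have haevO : ∀ g : MvPolynomial (Fin n) F, MvPolynomial.aeval x g ∈ O := by
    intro g
    have h1 : MvPolynomial.aeval x g ∈ Algebra.adjoin F (Set.range x) := by
      rw [Algebra.adjoin_range_eq_range_aeval]
      exact ⟨g, rfl⟩
    exact Algebra.adjoin_mono Set.subset_union_left h1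
  let α : MvPolynomial (Fin n) F →ₐ[F] O := (MvPolynomial.aeval x).codRestrict O haevO
  have hα : ∀ h, ((α h : O) : Ω) = MvPolynomial.aeval x h := fun h => rfl
  refine ⟨α, hα, ?_⟩
  have key : ∀ (z : Ω) (hz : z ∈ Algebra.adjoin F (Set.range x ∪ Set.range w)),
      α.toRingHom.IsIntegralElem ⟨z, hz⟩ := by
    intro z hz
    induction hz using Algebra.adjoin_induction with
    | mem z hz =>
      rcases hz with ⟨i, rfl⟩ | ⟨j, rfl⟩
      · have h1 : α.toRingHom (MvPolynomial.X i) =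
            ⟨x i, Algebra.subset_adjoin (Or.inl ⟨i, rfl⟩)⟩ :=
          Subtype.ext (MvPolynomial.aeval_X x i)
        rw [← h1]
        exact α.toRingHom.isIntegralElem_map
      · refine ⟨X ^ 2 - C (Φ j), monic_X_pow_sub_C _ (by norm_num), ?_⟩
        rw [eval₂_sub, eval₂_pow, eval₂_X, eval₂_C, sub_eq_zero]
        apply Subtype.ext
        change w j ^ 2 = MvPolynomial.aeval x (Φ j)
        exact hw j
    | algebraMap r =>
      have h1 : α.toRingHom (MvPolynomial.C r) =
          ⟨algebraMap F Ω r, Subalgebra.algebraMap_mem _ r⟩ :=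
        Subtype.ext (MvPolynomial.aeval_C x r)
      rw [← h1]
      exact α.toRingHom.isIntegralElem_map
    | add a b ha hb h1 h2 =>
      exact RingHom.IsIntegralElem.add α.toRingHom h1 h2
    | mul a b ha hb h1 h2 =>
      exact RingHom.IsIntegralElem.mul α.toRingHom h1 h2
  exact fun z => key z.1 z.2

/-- E1: denominators. -/
theorem exists_den {F Ω : Type u} [Field F] [Field Ω] [Algebra F Ω] {n s : ℕ}
    (x : Fin n → Ω) (w : Fin s → Ω) (Φ : Fin s → MvPolynomial (Fin n) F)
    (hx : AlgebraicIndependent F x) (hw : ∀ j, w j ^ 2 = MvPolynomial.aeval x (Φ j)) (a : Ω)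
    (ha : a ∈ IntermediateField.adjoin F (Set.range x ∪ Set.range w)) :
    ∃ h : MvPolynomial (Fin n) F, h ≠ 0 ∧
      a * MvPolynomial.aeval x h ∈ Algebra.adjoin F (Set.range x ∪ Set.range w) := by
  obtain ⟨α, hα, hint⟩ := integral_aux x w Φ hw
  obtain ⟨r, hr, d, hd, rfl⟩ := IntermediateField.mem_adjoin_iff_div.mp ha
  by_cases hd0 : d = 0
  · refine ⟨1, one_ne_zero, ?_⟩
    rw [hd0, div_zero, zero_mul]
    exact Subalgebra.zero_mem _
  let _ := α.toRingHom.toAlgebra
  have hd' : (⟨d, hd⟩ : Algebra.adjoin F (Set.range x ∪ Set.range w)) ∈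
      nonZeroDivisors (Algebra.adjoin F (Set.range x ∪ Set.range w)) :=
    mem_nonZeroDivisors_of_ne_zero fun h => hd0 (congrArg Subtype.val h)
  have halg : IsAlgebraic (MvPolynomial (Fin n) F)
      (⟨d, hd⟩ : Algebra.adjoin F (Set.range x ∪ Set.range w)) :=
    IsIntegral.isAlgebraic (hint ⟨d, hd⟩)
  obtain ⟨h, h0, e, he⟩ := halg.exists_nonzero_dvd hd'
  refine ⟨h, h0, ?_⟩
  have h1 : MvPolynomial.aeval x h = d * (e : Ω) := by
    rw [← hα h]
    exact congrArg Subtype.val he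
  have h2 : r / d * MvPolynomial.aeval x h = r * (e : Ω) := by
    rw [h1]
    field_simp
  rw [h2]
  exact Subalgebra.mul_mem _ hr e.2

/-- E2: specialisation. -/
theorem exists_spec {F Ω : Type u} [Field F] [Field Ω] [IsAlgClosed Ω] [Algebra F Ω] {n s : ℕ}
    (x : Fin n → Ω) (w : Fin s → Ω) (Φ : Fin s → MvPolynomial (Fin n) F)
    (hx : AlgebraicIndependent F x) (hw : ∀ j, w j ^ 2 = MvPolynomial.aeval x (Φ j))
    (ξ : Fin n → F) :
    ∃ φ : Algebra.adjoin F (Set.range x ∪ Set.range w) →ₐ[F] Ω,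
      (∀ h : MvPolynomial (Fin n) F,
        ∀ hh : MvPolynomial.aeval x h ∈ Algebra.adjoin F (Set.range x ∪ Set.range w),
        φ ⟨MvPolynomial.aeval x h, hh⟩ = algebraMap F Ω (MvPolynomial.eval ξ h)) ∧
      ∀ j, ∀ hj : w j ∈ Algebra.adjoin F (Set.range x ∪ Set.range w),
        φ ⟨w j, hj⟩ ^ 2 = algebraMap F Ω (MvPolynomial.eval ξ (Φ j)) := by
  set O : Subalgebra F Ω := Algebra.adjoin F (Set.range x ∪ Set.range w) with hO
  obtain ⟨α, hα, hint⟩ : ∃ α : MvPolynomial (Fin n) F →ₐ[F] O,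
      (∀ h, ((α h : O) : Ω) = MvPolynomial.aeval x h) ∧ α.toRingHom.IsIntegral :=
    integral_aux x w Φ hw
  have hinj : Function.Injective (MvPolynomial.aeval x : MvPolynomial (Fin n) F →ₐ[F] Ω) := hx
  have hαi : Function.Injective α := by
    intro a b hab
    apply hinj
    rw [← hα, ← hα, hab]
  let _ := α.toRingHom.toAlgebra
  have hαalg : ∀ h, algebraMap (MvPolynomial (Fin n) F) O h = α h := fun h => rfl
  have : Algebra.IsIntegral (MvPolynomial (Fin n) F) O := ⟨hint⟩
  have hker : (RingHom.ker (MvPolynomial.eval ξ)).IsPrime := RingHom.ker_isPrime _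
  obtain ⟨Q, hQ, hQP⟩ := Ideal.exists_ideal_over_prime_of_isIntegral_of_isDomain
    (S := O) (RingHom.ker (MvPolynomial.eval ξ)) (by
      intro a ha
      have h1 : a = 0 := hαi (by rw [map_zero]; exact ha)
      rw [h1]
      exact Ideal.zero_mem _)
  have hαQ : ∀ h : MvPolynomial (Fin n) F,
      Ideal.Quotient.mk Q (α h) = algebraMap F (O ⧸ Q) (MvPolynomial.eval ξ h) := by
    intro h
    have h1 : h - MvPolynomial.C (MvPolynomial.eval ξ h) ∈ RingHom.ker (MvPolynomial.eval ξ) := by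
      rw [RingHom.mem_ker, map_sub, MvPolynomial.eval_C, sub_self]
    rw [← hQP, Ideal.mem_comap, hαalg, map_sub] at h1
    have h2 : α (MvPolynomial.C (MvPolynomial.eval ξ h)) =
        algebraMap F O (MvPolynomial.eval ξ h) := α.commutes _
    rw [h2] at h1
    have h3 := (Ideal.Quotient.eq (I := Q)).mpr h1
    rw [h3]
    rfl
  have hintQ : Algebra.IsIntegral F (O ⧸ Q) := by
    refine ⟨fun z => ?_⟩
    obtain ⟨z, rfl⟩ := Ideal.Quotient.mk_surjective z
    refine IsIntegral.map_of_comp_eq (R := MvPolynomial (Fin n) F) (MvPolynomial.eval ξ)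
      (Ideal.Quotient.mk Q) ?_ (hint z)
    exact RingHom.ext fun h => (hαQ h).symm
  have : Algebra.IsAlgebraic F (O ⧸ Q) := inferInstance
  let φ : O →ₐ[F] Ω := (IsAlgClosed.lift : (O ⧸ Q) →ₐ[F] Ω).comp (Ideal.Quotient.mkₐ F Q)
  have hφ : ∀ h : MvPolynomial (Fin n) F, φ (α h) = algebraMap F Ω (MvPolynomial.eval ξ h) := by
    intro h
    change (IsAlgClosed.lift : (O ⧸ Q) →ₐ[F] Ω) (Ideal.Quotient.mk Q (α h)) = _
    rw [hαQ, AlgHom.commutes]
  refine ⟨φ, fun h hh => ?_, fun j hj => ?_⟩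
  · rw [← hφ h]
    exact congrArg φ (Subtype.ext (hα h).symm)
  · rw [← hφ (Φ j), ← map_pow]
    refine congrArg φ (Subtype.ext ?_)
    rw [hα]
    exact hw j

end Pool.Agent.Helper94.FAM
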