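import Pool.Agent.Helper16.FAM.Defs
import Pool.Agent.Helper94.FAM.Spec
import Pool.Agent.Helper33.FAM.E3

/-!
# Project FAM, piece E4: escape
-/

namespace Pool.Agent.Helper94.FAM

open Polynomial

universe u

open Pool.Agent.Helper33.FAM (exists_norm)

/-- An algebra inside a localisation `O[1 / s₀]` of a subring of a field. -/
theorem exists_lift {k F Ω : Type u} [Field k] [Field F] [Field Ω] [Algebra k F] [Algebra F Ω]
    [Algebra k Ω] [IsScalarTower k F Ω] (O : Subalgebra F Ω) (s₀ : O) (hs₀ : s₀ ≠ 0)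
    (M : Type u) [Field M] [Algebra k M] (φ : O →ₐ[k] M) (hφ : φ s₀ ≠ 0)
    (A : Subalgebra k Ω) (S : Finset Ω) (hS : Algebra.adjoin k (S : Set Ω) = A)
    (hSO : ∀ a ∈ S, a * (s₀ : Ω) ∈ O) :
    ∃ ψ : A →ₐ[k] M, (∀ a : A, ∃ N : ℕ, (a : Ω) * (s₀ : Ω) ^ N ∈ O) ∧
      ∀ (a : A) (N : ℕ) (b c : O), (a : Ω) * (s₀ : Ω) ^ N * (b : Ω) = c →
        ψ a * φ s₀ ^ N * φ b = φ c := by
  classical
  let θ : O →ₐ[k] Ω := O.val.restrictScalars k
  have hθ : ∀ a : O, θ a = (a : Ω) := fun a => rfl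
  have hθi : Function.Injective θ := Subtype.val_injective
  have hs₀Ω : (s₀ : Ω) ≠ 0 := fun h => hs₀ (Subtype.ext h)
  have hu : IsUnit (θ s₀) := isUnit_iff_ne_zero.mpr hs₀Ω
  have hu' : IsUnit (φ s₀) := isUnit_iff_ne_zero.mpr hφ
  set j : Localization.Away s₀ →ₐ[k] Ω := IsLocalization.Away.liftAlgHom s₀ hu with hj
  have hjx : ∀ a : O, j (algebraMap _ _ a) = θ a := fun a => by
    rw [hj, IsLocalization.Away.coe_liftAlgHom]
    exact IsLocalization.Away.lift_eq _ _ _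
  set Λ : Localization.Away s₀ →ₐ[k] M := IsLocalization.Away.liftAlgHom s₀ hu' with hΛ
  have hΛx : ∀ a : O, Λ (algebraMap _ _ a) = φ a := fun a => by
    rw [hΛ, IsLocalization.Away.coe_liftAlgHom]
    exact IsLocalization.Away.lift_eq _ _ _
  have hji : Function.Injective j := by
    rw [injective_iff_map_eq_zero]
    intro x hx
    obtain ⟨n, a, ha⟩ := IsLocalization.Away.surj s₀ x
    have h1 := congrArg j ha
    rw [map_mul, hx, zero_mul, hjx] at h1
    have h2 : a = 0 := hθi (by rw [← h1, map_zero])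
    rw [h2, map_zero] at ha
    have h3 : IsUnit (algebraMap O (Localization.Away s₀) s₀ ^ n) :=
      (IsLocalization.Away.algebraMap_isUnit s₀).pow n
    exact (h3.mul_left_eq_zero).mp ha
  have hrange : ∀ a : A, A.val a ∈ j.range := by
    have h1 : A ≤ j.range := by
      rw [← hS, Algebra.adjoin_le_iff]
      intro s hs
      rw [SetLike.mem_coe, AlgHom.mem_range]
      refine ⟨IsLocalization.mk' (Localization.Away s₀) (⟨s * s₀, hSO s hs⟩ : O)
        (⟨s₀, Submonoid.mem_powers s₀⟩ : Submonoid.powers s₀), ?_⟩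
      have h2 := congrArg j (IsLocalization.mk'_spec (Localization.Away s₀)
        (⟨s * s₀, hSO s hs⟩ : O) (⟨s₀, Submonoid.mem_powers s₀⟩ : Submonoid.powers s₀))
      rw [map_mul, hjx, hjx, hθ, hθ] at h2
      exact mul_right_cancel₀ hs₀Ω h2
    exact fun a => h1 a.2
  set ψ₁ : A →ₐ[k] Localization.Away s₀ :=
    (AlgEquiv.ofInjective j hji).symm.toAlgHom.comp (A.val.codRestrict j.range hrange) with hψ₁
  have hjψ : ∀ a : A, j (ψ₁ a) = (a : Ω) := by
    intro a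
    have h1 : AlgEquiv.ofInjective j hji (ψ₁ a) = A.val.codRestrict j.range hrange a := by
      rw [hψ₁]
      exact (AlgEquiv.ofInjective j hji).apply_symm_apply _
    exact congrArg Subtype.val h1
  refine ⟨Λ.comp ψ₁, ?_, ?_⟩
  · intro a
    obtain ⟨n, c, hc⟩ := IsLocalization.Away.surj s₀ (ψ₁ a)
    refine ⟨n, ?_⟩
    have h1 := congrArg j hc
    rw [map_mul, map_pow, hjψ, hjx, hjx, hθ, hθ] at h1
    rw [h1]
    exact c.2
  · intro a N b c h
    have h1 : ψ₁ a * algebraMap O (Localization.Away s₀) s₀ ^ N *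
        algebraMap O (Localization.Away s₀) b = algebraMap O (Localization.Away s₀) c := by
      apply hji
      rw [map_mul, map_mul, map_pow, hjψ, hjx, hjx, hjx, hθ, hθ, hθ]
      exact h
    have h2 := congrArg Λ h1
    rw [map_mul, map_mul, map_pow, hΛx, hΛx, hΛx] at h2
    exact h2

/-- E4: escape. -/
theorem escape {k Ω : Type u} [Field k] [Field Ω] [IsAlgClosed Ω] [Algebra k Ω]
    (F M : IntermediateField k Ω) (hFM : F ≤ M) {n s : ℕ}
    (x : Fin n → Ω) (w : Fin s → Ω) (Φ : Fin s → MvPolynomial (Fin n) F)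
    (hx : AlgebraicIndependent F x) (hw : ∀ j, w j ^ 2 = MvPolynomial.aeval x (Φ j))
    (c : Fin n → F) (η : Fin s → Ω) (hηM : ∀ j, η j ∈ M)
    (hη : ∀ j, η j ^ 2 = MvPolynomial.eval c (Φ j))
    (hT : ∀ W : Submodule k (MvPolynomial (Fin n) F), W.FG →
      ∃ (ξ : Fin n → F) (ρ : Fin s → F),
        (∀ j, MvPolynomial.eval ξ (Φ j) = ρ j ^ 2 * MvPolynomial.eval c (Φ j)) ∧
        ∀ g ∈ W, g ≠ 0 → MvPolynomial.eval ξ g ≠ 0)
    (A : Subalgebra k Ω) (hA : A.FG)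
    (hAE : ∀ a ∈ A, a ∈ IntermediateField.adjoin F (Set.range x ∪ Set.range w))
    (W : Submodule k A) (hW : W.FG) :
    ∃ ψ : A →ₐ[k] M, ∀ a ∈ W, ψ a = 0 → a = 0 := by
  classical
  set O : Subalgebra F Ω := Algebra.adjoin F (Set.range x ∪ Set.range w) with hO
  have hxO : ∀ i, x i ∈ O := fun i => Algebra.subset_adjoin (Or.inl ⟨i, rfl⟩)
  have hwO : ∀ j, w j ∈ O := fun j => Algebra.subset_adjoin (Or.inr ⟨j, rfl⟩)
  have haevO : ∀ g : MvPolynomial (Fin n) F, MvPolynomial.aeval x g ∈ O := by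
    intro g
    have h1 : MvPolynomial.aeval x g ∈ Algebra.adjoin F (Set.range x) := by
      rw [Algebra.adjoin_range_eq_range_aeval]
      exact ⟨g, rfl⟩
    exact Algebra.adjoin_mono Set.subset_union_left h1
  obtain ⟨S, hS⟩ := hA
  have hSA : ∀ a ∈ S, a ∈ A := fun a ha => by
    rw [← hS]
    exact Algebra.subset_adjoin ha
  -- a common denominator of the generators
  have hden : ∀ a : Ω, ∃ h : MvPolynomial (Fin n) F, h ≠ 0 ∧
      (a ∈ S → a * MvPolynomial.aeval x h ∈ O) := by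
    intro a
    by_cases ha : a ∈ S
    · obtain ⟨h, h0, h1⟩ := exists_den x w Φ hx hw a (hAE a (hSA a ha))
      exact ⟨h, h0, fun _ => h1⟩
    · exact ⟨1, one_ne_zero, fun h => absurd h ha⟩
  choose h hh0 hhO using hden
  obtain ⟨h₀, hh₀⟩ : ∃ h₀ : MvPolynomial (Fin n) F, h₀ = ∏ a ∈ S, h a := ⟨_, rfl⟩
  have hh₀0 : h₀ ≠ 0 := by
    rw [hh₀]
    exact Finset.prod_ne_zero_iff.mpr fun a _ => hh0 a
  obtain ⟨s₀, hs₀⟩ : ∃ s₀ : O, s₀ = ⟨MvPolynomial.aeval x h₀, haevO h₀⟩ := ⟨_, rfl⟩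
  have hs₀Ω : (s₀ : Ω) = MvPolynomial.aeval x h₀ := by rw [hs₀]
  have hinj : Function.Injective (MvPolynomial.aeval x : MvPolynomial (Fin n) F →ₐ[F] Ω) := hx
  have hs₀0' : (s₀ : Ω) ≠ 0 := by
    rw [hs₀Ω]
    intro h1
    exact hh₀0 (hinj (by rw [h1, map_zero]))
  have hs₀0 : s₀ ≠ 0 := fun h1 => hs₀0' (by rw [h1]; rfl)
  have hSO : ∀ a ∈ S, a * (s₀ : Ω) ∈ O := by
    intro a ha
    have h1 : a * (s₀ : Ω) = (a * MvPolynomial.aeval x (h a)) *
        MvPolynomial.aeval x (∏ b ∈ S.erase a, h b) := by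
      rw [hs₀Ω, hh₀, ← Finset.mul_prod_erase S h ha, map_mul]
      ring
    rw [h1]
    exact O.mul_mem (hhO a ha) (haevO _)
  -- powers of the denominator
  have hpow : ∀ a : A, ∃ N : ℕ, (a : Ω) * (s₀ : Ω) ^ N ∈ O := by
    have hφ : (O.val.restrictScalars k) s₀ ≠ 0 := hs₀0'
    exact (exists_lift O s₀ hs₀0 Ω (O.val.restrictScalars k) hφ A S hS hSO).choose_spec.1
  choose N hN using hpow
  obtain ⟨T, hTW⟩ := hW
  obtain ⟨N₀, hN₀⟩ : ∃ N₀ : ℕ, ∀ a ∈ W, (a : Ω) * (s₀ : Ω) ^ N₀ ∈ O := by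
    refine ⟨T.sup N, fun a ha => ?_⟩
    rw [← hTW] at ha
    induction ha using Submodule.span_induction with
    | mem t ht =>
      have h1 : N t ≤ T.sup N := Finset.le_sup ht
      have h2 : (t : Ω) * (s₀ : Ω) ^ (T.sup N) =
          ((t : Ω) * (s₀ : Ω) ^ N t) * (s₀ : Ω) ^ (T.sup N - N t) := by
        rw [mul_assoc, ← pow_add, Nat.add_sub_cancel' h1]
      rw [h2]
      exact O.mul_mem (hN t) (O.pow_mem s₀.2 _)
    | zero =>
      have h1 : ((0 : A) : Ω) * (s₀ : Ω) ^ (T.sup N) = 0 := by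
        rw [ZeroMemClass.coe_zero, zero_mul]
      rw [h1]
      exact O.zero_mem
    | add a b _ _ ha hb =>
      have h1 : ((a + b : A) : Ω) * (s₀ : Ω) ^ (T.sup N) =
          (a : Ω) * (s₀ : Ω) ^ (T.sup N) + (b : Ω) * (s₀ : Ω) ^ (T.sup N) := by
        rw [AddMemClass.coe_add, add_mul]
      rw [h1]
      exact O.add_mem ha hb
    | smul r a _ ha =>
      have h1 : ((r • a : A) : Ω) * (s₀ : Ω) ^ (T.sup N) =
          algebraMap F Ω (algebraMap k F r) * ((a : Ω) * (s₀ : Ω) ^ (T.sup N)) := by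
        rw [← IsScalarTower.algebraMap_apply k F Ω, ← mul_assoc, ← Algebra.smul_def]
        rfl
      rw [h1]
      exact O.mul_mem (O.algebraMap_mem _) ha
  obtain ⟨W', hW'⟩ : ∃ W' : Submodule k Ω, W' =
      W.map ((LinearMap.mulRight k ((s₀ : Ω) ^ N₀)).comp A.val.toLinearMap) := ⟨_, rfl⟩
  have hW'FG : W'.FG := by
    rw [hW']
    exact Submodule.FG.map _ ⟨T, hTW⟩
  have hW'O : ∀ a ∈ W', a ∈ O := by
    intro a ha
    rw [hW'] at ha
    obtain ⟨b, hb, rfl⟩ := ha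
    exact hN₀ b hb
  obtain ⟨V, hV, hVW⟩ := exists_norm x w Φ hx hw W' hW'FG hW'O
  obtain ⟨ξ, ρ, hξ, hg⟩ := hT (V ⊔ Submodule.span k {h₀})
    (hV.sup (Submodule.fg_span_singleton h₀))
  obtain ⟨φ, hφ1, hφ2⟩ := exists_spec x w Φ hx hw ξ
  have hFM' : ∀ r : F, (r : Ω) ∈ M := fun r => hFM r.2
  have hφM : ∀ z : O, φ z ∈ M := by
    intro z
    obtain ⟨z, hz⟩ := z
    have key : ∀ (z : Ω) (hz : z ∈ Algebra.adjoin F (Set.range x ∪ Set.range w)),
        φ ⟨z, hz⟩ ∈ M := by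
      intro z hz
      induction hz using Algebra.adjoin_induction with
      | mem z hz =>
        rcases hz with ⟨i, rfl⟩ | ⟨j, rfl⟩
        · have h1 := hφ1 (MvPolynomial.X i) (haevO _)
          have h2 : (⟨MvPolynomial.aeval x (MvPolynomial.X i : MvPolynomial (Fin n) F),
              haevO _⟩ : O) = ⟨x i, hxO i⟩ := Subtype.ext (MvPolynomial.aeval_X x i)
          rw [MvPolynomial.eval_X] at h1
          have h3 : φ ⟨x i, hxO i⟩ = algebraMap F Ω (ξ i) := by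
            rw [← h1]
            exact congrArg φ h2.symm
          rw [h3]
          exact hFM' (ξ i)
        · have h1 := hφ2 j (hwO j)
          rw [hξ j] at h1
          have h2 : φ ⟨w j, hwO j⟩ ^ 2 = ((ρ j : Ω) * η j) ^ 2 := by
            rw [h1, mul_pow, hη j]
            rfl
          have h3 : (ρ j : Ω) * η j ∈ M := M.mul_mem (hFM' (ρ j)) (hηM j)
          rcases sq_eq_sq_iff_eq_or_eq_neg.mp h2 with h4 | h4
          · rw [h4]
            exact h3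
          · rw [h4]
            exact M.neg_mem h3
      | algebraMap r =>
        have h1 : φ (algebraMap F O r) = algebraMap F Ω r := φ.commutes r
        have h2 : φ ⟨algebraMap F Ω r, Subalgebra.algebraMap_mem _ r⟩ = algebraMap F Ω r := h1
        rw [h2]
        exact hFM' r
      | add a b ha hb h1 h2 =>
        have h3 : φ ⟨a + b, Subalgebra.add_mem _ ha hb⟩ = φ ⟨a, ha⟩ + φ ⟨b, hb⟩ :=
          map_add φ ⟨a, ha⟩ ⟨b, hb⟩
        rw [h3]
        exact M.add_mem h1 h2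
      | mul a b ha hb h1 h2 =>
        have h3 : φ ⟨a * b, Subalgebra.mul_mem _ ha hb⟩ = φ ⟨a, ha⟩ * φ ⟨b, hb⟩ :=
          map_mul φ ⟨a, ha⟩ ⟨b, hb⟩
        rw [h3]
        exact M.mul_mem h1 h2
    exact key z hz
  obtain ⟨φM, hφMv⟩ : ∃ φM : O →ₐ[k] M, ∀ z, ((φM z : M) : Ω) = φ z :=
    ⟨(φ.restrictScalars k).codRestrict M.toSubalgebra hφM, fun z => rfl⟩
  have hφs₀ : φM s₀ ≠ 0 := by
    intro h1
    have h2 : φ s₀ = 0 := by rw [← hφMv, h1]; rfl
    have h3 := hφ1 h₀ (haevO h₀)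
    rw [hs₀] at h2
    rw [h2] at h3
    have h4 : MvPolynomial.eval ξ h₀ = 0 :=
      (algebraMap F Ω).injective (by rw [← h3, map_zero])
    exact hg h₀ (Submodule.mem_sup_right (Submodule.mem_span_singleton_self h₀)) hh₀0 h4
  obtain ⟨ψ, -, hψ⟩ := exists_lift O s₀ hs₀0 M φM hφs₀ A S hS hSO
  refine ⟨ψ, fun a haW ha => ?_⟩
  by_contra hne
  have ha' : (a : Ω) * (s₀ : Ω) ^ N₀ ∈ W' := by
    rw [hW']
    exact ⟨a, haW, rfl⟩
  have hne' : (a : Ω) * (s₀ : Ω) ^ N₀ ≠ 0 := by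
    refine mul_ne_zero (fun h1 => hne (Subtype.ext h1)) (pow_ne_zero _ hs₀0')
  obtain ⟨g, hgV, hg0, b, hb, hab⟩ := hVW _ ha' hne'
  have h1 := hψ a N₀ ⟨b, hb⟩ ⟨MvPolynomial.aeval x g, haevO g⟩ hab
  rw [ha, zero_mul, zero_mul] at h1
  have h2 : φ ⟨MvPolynomial.aeval x g, haevO g⟩ = 0 := by
    rw [← hφMv, ← h1]
    rfl
  rw [hφ1 g (haevO g)] at h2
  have h4 : MvPolynomial.eval ξ g = 0 :=
    (algebraMap F Ω).injective (by rw [h2, map_zero])
  exact hg g (Submodule.mem_sup_left hgV) hg0 h4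

end Pool.Agent.Helper94.FAM
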